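import Mathlib

namespace Pool.Agent.Results.MP_18aa7e_al.Full

open scoped Pointwise

/-- The defining relations `u = v` of `G²₄`, with `a, b, c, d, e, f` numbered `0, …, 5`. -/
def relPairs : List (List (Fin 6) × List (Fin 6)) :=
  [([0, 0], []), ([1, 1], []), ([2, 2], []), ([3, 3], []), ([4, 4], []), ([5, 5], []),
   ([0, 5], [5, 0]), ([1, 4], [4, 1]), ([2, 3], [3, 2]),
   ([0, 1, 3], [3, 1, 0]), ([1, 0, 3], [3, 0, 1]), ([0, 3, 1], [1, 3, 0]),
   ([0, 2, 4], [4, 2, 0]), ([2, 0, 4], [4, 0, 2]), ([0, 4, 2], [2, 4, 0]),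
   ([1, 2, 5], [5, 2, 1]), ([2, 1, 5], [5, 1, 2]), ([1, 5, 2], [2, 5, 1]),
   ([3, 4, 5], [5, 4, 3]), ([4, 3, 5], [5, 3, 4]), ([3, 5, 4], [4, 5, 3])]

/-- A positive word in the generators, as an element of the free group. -/
def word (l : List (Fin 6)) : FreeGroup (Fin 6) := (l.map FreeGroup.of).prod

/-- The Manturov group `G²₄`. -/
abbrev G24 : Type := PresentedGroup {r | ∃ p ∈ relPairs, r = word p.1 * (word p.2)⁻¹}

abbrev V : Type := ZMod 2 × ZMod 2

def tr (v : V) (s : Stream' V) : Stream' V := Stream'.cons (s.head + v) s.tail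

def sw (s : Stream' V) : Stream' V :=
  if s.head ≠ 0 then Stream'.cons 0 s else if s.tail.head ≠ 0 then s.tail else s

lemma vv : ∀ u v : V, u + v + v = u := by decide

lemma tr_inv (v : V) : Function.Involutive (tr v) := by
  intro s
  simp only [tr, Stream'.head_cons, Stream'.tail_cons, vv, Stream'.eta]

lemma sw_ne (s : Stream' V) (h : s.head ≠ 0) : sw s = Stream'.cons 0 s := if_pos h

lemma sw_inv : Function.Involutive sw := by
  intro s
  by_cases h : s.head = 0
  · by_cases h2 : s.tail.head = 0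
    · have : sw s = s := by simp only [sw, h, h2, ne_eq, not_true_eq_false, if_false]
      rw [this, this]
    · have : sw s = s.tail := by
        simp only [sw, h, h2, ne_eq, not_true_eq_false, if_false, not_false_eq_true, if_true]
      rw [this, sw_ne _ h2, ← h, Stream'.eta]
  · rw [sw_ne s h]
    simp only [sw, Stream'.head_cons, Stream'.tail_cons, h, ne_eq, not_true_eq_false, if_false,
      not_false_eq_true, if_true]

def A : Equiv.Perm (Stream' V) := sw_inv.toPerm sw
def T (v : V) : Equiv.Perm (Stream' V) := (tr_inv v).toPerm (tr v)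

lemma hA : A * A = 1 := Equiv.ext sw_inv
lemma hT (v : V) : T v * T v = 1 := Equiv.ext (tr_inv v)
lemma hA' (x : Equiv.Perm (Stream' V)) : A * (A * x) = x := by rw [← mul_assoc, hA, one_mul]
lemma hTT (u v : V) : T u * T v = T v * T u := Equiv.ext fun s => by
  show tr u (tr v s) = tr v (tr u s)
  simp only [tr, Stream'.head_cons, Stream'.tail_cons, add_right_comm]

def cs : Fin 2 → V := ![(1, 0), (0, 1)]

lemma free : Function.Injective
    (FreeGroup.lift fun i : Fin 2 => A * T (cs i) * A * T (cs i)) := by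
  have c0 : ∀ i, cs i ≠ 0 := by decide
  have c1 : ∀ i j, cs i = cs j → i = j := by decide
  have c2 : ∀ i (u : V), u ≠ cs i → u + cs i ≠ 0 := by decide
  refine FreeGroup.injective_lift_of_ping_pong _
    (fun i => {s : Stream' V | s.head = 0 ∧ s.tail.head = cs i}) (fun i => {s | s.head = cs i})
    (fun i => ⟨Stream'.cons 0 (Stream'.const (cs i)), rfl, rfl⟩) ?_ ?_ ?_ ?_ ?_
  · intro i j hij
    exact Set.disjoint_left.2 fun s h1 h2 => hij (c1 _ _ (h1.2.symm.trans h2.2))
  · intro i j hij
    exact Set.disjoint_left.2 fun s h1 h2 => hij (c1 _ _ (Eq.trans (Eq.symm h1) h2))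
  · intro i j
    exact Set.disjoint_left.2 fun s h1 h2 => c0 j (Eq.trans (Eq.symm h2) h1.1)
  · rintro i _ ⟨s, hs, rfl⟩
    show (sw (tr (cs i) (sw (tr (cs i) s)))).head = 0 ∧
      (sw (tr (cs i) (sw (tr (cs i) s)))).tail.head = cs i
    rw [sw_ne (tr (cs i) s) (c2 i _ hs), sw_ne _ (by simpa [tr] using c0 i)]
    simp [tr]
  · rintro i _ ⟨s, hs, rfl⟩
    have e : (A * T (cs i) * A * T (cs i))⁻¹ = T (cs i) * A * T (cs i) * A := by
      rw [inv_eq_iff_mul_eq_one]
      simp only [mul_assoc]
      rw [← mul_assoc (T _) (T _), hT, one_mul, hA', ← mul_assoc (T _) (T _), hT, one_mul, hA]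
    show ((A * T (cs i) * A * T (cs i))⁻¹ s).head = cs i
    rw [e]
    show (tr (cs i) (sw (tr (cs i) (sw s)))).head = cs i
    have h1 : (sw s).head ≠ cs i := by
      by_cases h : s.head = 0
      · by_cases h2 : s.tail.head = 0
        · have : sw s = s := by simp only [sw, h, h2, ne_eq, not_true_eq_false, if_false]
          rw [this, h]; exact (c0 i).symm
        · have : sw s = s.tail := by
            simp only [sw, h, h2, ne_eq, not_true_eq_false, if_false, not_false_eq_true, if_true]
          rw [this]; exact fun h3 => hs ⟨h, h3⟩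
      · rw [sw_ne s h]; exact (c0 i).symm
    rw [sw_ne (tr (cs i) (sw s)) (c2 i _ h1)]
    simp [tr]

theorem result : ∃ H : Subgroup G24, Nonempty (H ≃* FreeGroup (Fin 2)) := by
  let π : G24 →* Equiv.Perm (Stream' V) :=
    PresentedGroup.toGroup (f := ![A, A, T (cs 0), T (cs 1), A, A]) (by
      rintro _ ⟨p, hp, rfl⟩
      rw [map_mul, map_inv, mul_inv_eq_one]
      simp only [relPairs, List.mem_cons, List.not_mem_nil, or_false] at hp
      rcases hp with rfl | rfl | rfl | rfl | rfl | rfl | rfl | rfl | rfl | rfl | rfl | rfl | rfl |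
        rfl | rfl | rfl | rfl | rfl | rfl | rfl | rfl <;>
      simp [word, hA, hA', hT, hTT (cs 0) (cs 1)])
  let g : Fin 2 → G24 := fun i => PresentedGroup.of 0 * PresentedGroup.of (![2, 3] i) *
    PresentedGroup.of 0 * PresentedGroup.of (![2, 3] i)
  have h : π.comp (FreeGroup.lift g) =
      FreeGroup.lift fun i : Fin 2 => A * T (cs i) * A * T (cs i) := by
    ext1 i
    fin_cases i <;> simp [π, g]
  have hi : Function.Injective (FreeGroup.lift g) := by
    have := free
    rw [← h, MonoidHom.coe_comp] at this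
    exact this.of_comp
  exact ⟨_, ⟨(MonoidHom.ofInjective hi).symm⟩⟩

end Pool.Agent.Results.MP_18aa7e_al.Full
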